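import Pool.Agent.V8H45.MS.Add

/-!
# `T_Sqf` is not MS-measurable
-/

open FirstOrder FirstOrder.Language Set

universe u

namespace Pool.Agent.Results.MP_c6a6a6_lc.NotMSMeasurable

open Pool.Agent.V8H45.MS

/-- the term `s + t` -/
def tadd {α : Type} (s t : LSqf.Term α) : LSqf.Term α :=
  Term.func (L := LSqf) (l := 2) SqfFn.add ![s, t]

/-- the term `1` -/
def tone {α : Type} : LSqf.Term α := Term.func (L := LSqf) (l := 0) SqfFn.one ![]

section

variable {M : Type*} [LSqf.Structure M]

/-- addition in an `LSqf`-structure -/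
def madd (x y : M) : M := Structure.funMap (L := LSqf) (n := 2) SqfFn.add ![x, y]

/-- the element `1` of an `LSqf`-structure -/
def mone : M := Structure.funMap (L := LSqf) (n := 0) SqfFn.one ![]

theorem realize_tadd {α : Type} (v : α → M) (s t : LSqf.Term α) :
    (tadd s t).realize v = madd (s.realize v) (t.realize v) := by
  simp only [tadd, Term.realize, madd]
  congr 1
  funext i
  fin_cases i <;> rfl

theorem realize_tone {α : Type} (v : α → M) : (tone : LSqf.Term α).realize v = mone := by
  simp only [tone, Term.realize, mone]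
  congr 1
  funext i
  exact i.elim0

end

/-- `∀ x y, x + x = y + y → x = y` -/
def sInj : LSqf.Sentence :=
  BoundedFormula.all (BoundedFormula.all
    (((tadd (&0) (&0) : LSqf.Term (Empty ⊕ Fin 2)) =' (tadd (&1) (&1))).imp
      ((&0 : LSqf.Term (Empty ⊕ Fin 2)) =' (&1))))

/-- `∀ x, (∃ y, x = y + y) ∨ (∃ y, x = (y + y) + 1)` -/
def sCov : LSqf.Sentence :=
  BoundedFormula.all
    ((BoundedFormula.ex ((&0 : LSqf.Term (Empty ⊕ Fin 2)) =' (tadd (&1) (&1)))) ⊔
     (BoundedFormula.ex ((&0 : LSqf.Term (Empty ⊕ Fin 2)) =' (tadd (tadd (&1) (&1)) tone))))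

/-- `∀ x y, x + x ≠ (y + y) + 1` -/
def sDis : LSqf.Sentence :=
  BoundedFormula.all (BoundedFormula.all
    (((tadd (&0) (&0) : LSqf.Term (Empty ⊕ Fin 2)) =' (tadd (tadd (&1) (&1)) tone))).not)

/-- `∀ x y, (x + x) + 1 = (y + y) + 1 → x = y` -/
def sInj' : LSqf.Sentence :=
  BoundedFormula.all (BoundedFormula.all
    (((tadd (tadd (&0) (&0)) tone : LSqf.Term (Empty ⊕ Fin 2)) ='
      (tadd (tadd (&1) (&1)) tone)).imp
      ((&0 : LSqf.Term (Empty ⊕ Fin 2)) =' (&1))))

section

variable {M : Type*} [LSqf.Structure M]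

theorem realize_sInj : M ⊨ sInj ↔ ∀ x y : M, madd x x = madd y y → x = y := by
  simp only [sInj, Sentence.Realize, Formula.Realize, BoundedFormula.realize_all,
    BoundedFormula.realize_imp, BoundedFormula.realize_bdEqual, realize_tadd]
  rfl

theorem realize_sCov : M ⊨ sCov ↔
    ∀ x : M, (∃ y, x = madd y y) ∨ (∃ y, x = madd (madd y y) mone) := by
  simp only [sCov, Sentence.Realize, Formula.Realize, BoundedFormula.realize_all,
    BoundedFormula.realize_sup, BoundedFormula.realize_ex,
    BoundedFormula.realize_bdEqual, realize_tadd, realize_tone]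
  rfl

theorem realize_sDis : M ⊨ sDis ↔
    ∀ x y : M, ¬ (madd x x = madd (madd y y) mone) := by
  simp only [sDis, Sentence.Realize, Formula.Realize, BoundedFormula.realize_all,
    BoundedFormula.realize_not,
    BoundedFormula.realize_bdEqual, realize_tadd, realize_tone]
  rfl

theorem realize_sInj' : M ⊨ sInj' ↔
    ∀ x y : M, madd (madd x x) mone = madd (madd y y) mone → x = y := by
  simp only [sInj', Sentence.Realize, Formula.Realize, BoundedFormula.realize_all,
    BoundedFormula.realize_imp, BoundedFormula.realize_bdEqual, realize_tadd, realize_tone]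
  rfl

end

theorem int_madd (x y : ℤ) : madd x y = x + y := rfl

theorem int_mone : (mone : ℤ) = 1 := rfl

theorem int_sInj : ℤ ⊨ sInj := by
  rw [realize_sInj]; intro x y; simp only [int_madd]; omega

theorem int_sCov : ℤ ⊨ sCov := by
  rw [realize_sCov]; intro x; simp only [int_madd, int_mone]
  rcases Int.even_or_odd' x with ⟨k, h | h⟩
  · left; exact ⟨k, by omega⟩
  · right; exact ⟨k, by omega⟩

theorem int_sDis : ℤ ⊨ sDis := by
  rw [realize_sDis]; intro x y; simp only [int_madd, int_mone]; omega

theorem int_sInj' : ℤ ⊨ sInj' := by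
  rw [realize_sInj']; intro x y; simp only [int_madd, int_mone]; omega

section

variable {M : Type*} [LSqf.Structure M]

theorem transfer (hM : M ⊨ TSqf) (φ : LSqf.Sentence) (h : ℤ ⊨ φ) : M ⊨ φ :=
  hM.realize_of_mem φ h

/-- the doubling map on `M^1` -/
def dbl (x : Fin 1 → M) : Fin 1 → M := fun _ => madd (x 0) (x 0)

/-- `x ↦ 2x+1` on `M^1` -/
def dbl1 (x : Fin 1 → M) : Fin 1 → M := fun _ => madd (madd (x 0) (x 0)) mone

theorem graph_dbl : (univ : Set M).Definable LSqf (graphOf (M := M) (n := 1) (m := 1) univ dbl) := by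
  refine Set.Definable.mono (A := (∅ : Set M)) ?_ (empty_subset _)
  rw [Set.empty_definable_iff]
  refine ⟨Term.equal (tadd (Term.var (Sum.inl 0)) (Term.var (Sum.inl 0))) (Term.var (Sum.inr 0)), ?_⟩
  ext z
  simp only [graphOf, mem_univ, true_and, mem_ofPred_eq, Formula.realize_equal, realize_tadd,
    Term.realize_var]
  constructor
  · intro h; exact congrFun h 0
  · intro h; funext i; rw [Subsingleton.elim i 0]; exact h

theorem graph_dbl1 :
    (univ : Set M).Definable LSqf (graphOf (M := M) (n := 1) (m := 1) univ dbl1) := by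
  refine Set.Definable.mono (A := (∅ : Set M)) ?_ (empty_subset _)
  rw [Set.empty_definable_iff]
  refine ⟨Term.equal (tadd (tadd (Term.var (Sum.inl 0)) (Term.var (Sum.inl 0))) tone)
    (Term.var (Sum.inr 0)), ?_⟩
  ext z
  simp only [graphOf, mem_univ, true_and, mem_ofPred_eq, Formula.realize_equal, realize_tadd,
    realize_tone, Term.realize_var]
  constructor
  · intro h; exact congrFun h 0
  · intro h; funext i; rw [Subsingleton.elim i 0]; exact h

theorem def_range_dbl : (univ : Set M).Definable LSqf (range (dbl (M := M))) := by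
  refine Set.Definable.mono (A := (∅ : Set M)) ?_ (empty_subset _)
  rw [Set.empty_definable_iff]
  refine ⟨BoundedFormula.ex ((Term.var (Sum.inl 0) : LSqf.Term (Fin 1 ⊕ Fin 1)) ='
    (tadd (&0) (&0))), ?_⟩
  ext z
  simp only [mem_range, mem_ofPred_eq, Formula.Realize, BoundedFormula.realize_ex,
    BoundedFormula.realize_bdEqual, realize_tadd, Term.realize_var]
  constructor
  · rintro ⟨x, rfl⟩; exact ⟨x 0, rfl⟩
  · rintro ⟨a, ha⟩
    refine ⟨fun _ => a, ?_⟩
    funext i
    rw [Subsingleton.elim i 0]
    exact ha.symm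

theorem def_range_dbl1 : (univ : Set M).Definable LSqf (range (dbl1 (M := M))) := by
  refine Set.Definable.mono (A := (∅ : Set M)) ?_ (empty_subset _)
  rw [Set.empty_definable_iff]
  refine ⟨BoundedFormula.ex ((Term.var (Sum.inl 0) : LSqf.Term (Fin 1 ⊕ Fin 1)) ='
    (tadd (tadd (&0) (&0)) tone)), ?_⟩
  ext z
  simp only [mem_range, mem_ofPred_eq, Formula.Realize, BoundedFormula.realize_ex,
    BoundedFormula.realize_bdEqual, realize_tadd, realize_tone, Term.realize_var]
  constructor
  · rintro ⟨x, rfl⟩; exact ⟨x 0, rfl⟩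
  · rintro ⟨a, ha⟩
    refine ⟨fun _ => a, ?_⟩
    funext i
    rw [Subsingleton.elim i 0]
    exact ha.symm

end

theorem def_univ {M : Type*} [LSqf.Structure M] :
    (univ : Set M).Definable LSqf (univ : Set (Fin 1 → M)) := Set.definable_univ

theorem no_measure {M : Type*} [LSqf.Structure M] (hM : M ⊨ TSqf) :
    ¬ MSMeasurable LSqf M := by
  classical
  rintro ⟨h, H⟩
  have hInj := realize_sInj.1 (transfer hM _ int_sInj)
  have hCov := realize_sCov.1 (transfer hM _ int_sCov)
  have hDis := realize_sDis.1 (transfer hM _ int_sDis)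
  have hInj' := realize_sInj'.1 (transfer hM _ int_sInj')
  let c1 : Fin 1 → M := fun _ => madd mone mone
  let c2 : Fin 1 → M := fun _ => madd (madd mone mone) mone
  have hc : c1 ≠ c2 := fun he => hDis mone mone (congrFun he 0)
  have e1 : h 1 (univ : Set (Fin 1 → M)) = h 1 (range (dbl (M := M))) := by
    refine H.bij c1 c2 hc univ _ dbl def_univ def_range_dbl graph_dbl image_univ ?_
    intro x _ y _ hxy
    funext i
    rw [Subsingleton.elim i 0]
    exact hInj _ _ (congrFun hxy 0)
  have e2 : h 1 (univ : Set (Fin 1 → M)) = h 1 (range (dbl1 (M := M))) := by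
    refine H.bij c1 c2 hc univ _ dbl1 def_univ def_range_dbl1 graph_dbl1 image_univ ?_
    intro x _ y _ hxy
    funext i
    rw [Subsingleton.elim i 0]
    exact hInj' _ _ (congrFun hxy 0)
  have hun : range (dbl (M := M)) ∪ range (dbl1 (M := M)) = univ := by
    ext z
    simp only [mem_union, mem_range, mem_univ, iff_true]
    rcases hCov (z 0) with ⟨y, hy⟩ | ⟨y, hy⟩
    · left
      refine ⟨fun _ => y, ?_⟩
      funext i
      rw [Subsingleton.elim i 0]
      exact hy.symm
    · right
      refine ⟨fun _ => y, ?_⟩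
      funext i
      rw [Subsingleton.elim i 0]
      exact hy.symm
  have hdisj : Disjoint (range (dbl (M := M))) (range (dbl1 (M := M))) := by
    rw [Set.disjoint_left]
    rintro z ⟨x, rfl⟩ ⟨y, hy⟩
    exact hDis (x 0) (y 0) (congrFun hy 0).symm
  have hadd := H.add c1 c2 hc _ _ def_range_dbl def_range_dbl1 hdisj ⟨_, mem_range_self c1⟩
    ⟨_, mem_range_self c1⟩
  rw [hun, ← e1, ← e2] at hadd
  have h0 : (h 1 (univ : Set (Fin 1 → M))).2 = 0 := by
    have := congrArg Prod.snd hadd
    simp only [padd, lt_irrefl, if_false] at this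
    linarith
  have h00 : h 1 (univ : Set (Fin 1 → M)) = (0, 0) := by
    rcases H.values 1 le_rfl univ def_univ with h1 | h1
    · rw [h0] at h1
      exact absurd h1 (lt_irrefl _)
    · exact h1
  have hd1 : (univ : Set M).Definable LSqf ({c1} : Set (Fin 1 → M)) := definable_singleton c1
  have hadd2 := H.add c1 c2 hc {c1} {c1}ᶜ hd1 hd1.compl disjoint_compl_right ⟨c1, rfl⟩
    ⟨c2, fun he => hc he.symm⟩
  rw [union_compl_self, h00, H.finite 1 le_rfl _ (finite_singleton c1), ncard_singleton] at hadd2
  rcases H.values 1 le_rfl _ hd1.compl with h1 | h1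
  · unfold padd at hadd2
    simp only [Nat.cast_one] at hadd2
    split_ifs at hadd2 with h2 h3
    · rw [← hadd2] at h1
      exact lt_irrefl _ h1
    · simp at hadd2
    · have := congrArg Prod.snd hadd2
      simp only at this
      linarith
  · rw [h1] at hadd2
    have := congrArg Prod.snd hadd2
    simp [padd] at this

/-- **No model of `T_Sqf` is MS-measurable**: the complete theory of the integers with the
predicates `P_m`, `U_{p,l}` has no MS-measurable model. -/
theorem result : ¬ ∃ (M : Type u) (_ : LSqf.Structure M), M ⊨ TSqf ∧ MSMeasurable LSqf M := by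
  rintro ⟨M, _, hM, h⟩
  exact no_measure hM h

end Pool.Agent.Results.MP_c6a6a6_lc.NotMSMeasurable
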